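import Mathlib

/-!
CN-PATH: comparison of a box with the complete graph by canonical paths.
-/

set_option autoImplicit false

namespace Pool.Agent.Y950.CN

open Finset

/-- the point with the coordinates `< k` of `y` and the others of `x` -/
def zz {d : ℕ} (x y : Fin d → ℕ) (k : ℕ) : Fin d → ℕ := fun i => if i.val < k then y i else x i

theorem zz_zero {d : ℕ} (x y : Fin d → ℕ) : zz x y 0 = x := by
  funext i
  simp [zz]

theorem zz_d {d : ℕ} (x y : Fin d → ℕ) : zz x y d = y := by
  funext i
  simp [zz]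

theorem zz_succ {d : ℕ} (x y : Fin d → ℕ) (k : Fin d) :
    zz x y (k.val + 1) = Function.update (zz x y k.val) k (y k) := by
  funext i
  by_cases h : i = k
  · subst h
    rw [Function.update_self]
    simp [zz]
  · rw [Function.update_of_ne h]
    have h1 : i.val ≠ k.val := fun h2 => h (Fin.ext h2)
    unfold zz
    by_cases h2 : i.val < k.val
    · rw [if_pos h2, if_pos (by omega)]
    · rw [if_neg h2, if_neg (by omega)]

theorem zz_self {d : ℕ} (x y : Fin d → ℕ) (k : Fin d) :
    zz x y k.val = Function.update (zz x y k.val) k (x k) := by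
  have : x k = zz x y k.val k := by simp [zz]
  rw [this, Function.update_eq_self]

theorem zz_inv {d : ℕ} (x y : Fin d → ℕ) (k : ℕ) : zz (zz x y k) (zz y x k) k = x := by
  funext i
  unfold zz
  by_cases h : i.val < k
  · simp [h]
  · simp [h]

section

variable {d : ℕ} {a b : Fin d → ℕ} {l : ℕ} {B : Finset (Fin d → ℕ)}

theorem mem_zz (hB : B = Fintype.piFinset (fun i => Finset.Ico (a i) (b i))) {x y : Fin d → ℕ}
    (hx : x ∈ B) (hy : y ∈ B) (k : ℕ) : zz x y k ∈ B := by
  rw [hB, Fintype.mem_piFinset] at *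
  intro i
  unfold zz
  split_ifs
  · exact hy i
  · exact hx i

theorem mem_up (hB : B = Fintype.piFinset (fun i => Finset.Ico (a i) (b i))) {x : Fin d → ℕ}
    (hx : x ∈ B) (i : Fin d) {m : ℕ} (hm : m ∈ Finset.Ico (a i) (b i)) :
    Function.update x i m ∈ B := by
  rw [hB, Fintype.mem_piFinset] at *
  intro j
  by_cases h : j = i
  · subst h
    rwa [Function.update_self]
  · rw [Function.update_of_ne h]
    exact hx j

variable (r : (Fin d → ℕ) → (Fin d → ℕ) → ℝ)

/-- the sum of the distances along a line -/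
noncomputable def RR (a b : Fin d → ℕ) (i : Fin d) (u : Fin d → ℕ) : ℝ :=
  ∑ j ∈ Finset.Ico (a i) (b i - 1), r (Function.update u i j) (Function.update u i (j + 1))

/-- the square of the distance to the next point -/
noncomputable def FF (B : Finset (Fin d → ℕ)) (i : Fin d) (w : Fin d → ℕ) : ℝ :=
  if Function.update w i (w i + 1) ∈ B then r w (Function.update w i (w i + 1)) ^ 2 else 0

theorem path (hl : ∀ i, b i ≤ a i + l)
    (hB : B = Fintype.piFinset (fun i => Finset.Ico (a i) (b i)))
    (h0 : ∀ x ∈ B, ∀ y ∈ B, 0 ≤ r x y) (hs : ∀ x ∈ B, ∀ y ∈ B, r x y = r y x)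
    (hd : ∀ x ∈ B, r x x = 0)
    (ht : ∀ x ∈ B, ∀ y ∈ B, ∀ z ∈ B, r x z ≤ r x y + 2 * r y z) :
    ∑ x ∈ B, ∑ y ∈ B, r x y ^ 2 ≤ 16 * (d : ℝ) * (l : ℝ) ^ 2 * (B.card : ℝ) *
      ∑ x ∈ B, ∑ i, FF r B i x := by
  -- along a line
  have line : ∀ u ∈ B, ∀ i : Fin d, ∀ m1 ∈ Finset.Ico (a i) (b i), ∀ n : ℕ, m1 + n < b i →
      r (Function.update u i m1) (Function.update u i (m1 + n)) ≤
        2 * ∑ j ∈ Finset.Ico m1 (m1 + n), r (Function.update u i j) (Function.update u i (j + 1)) := by
    intro u hu i m1 hm1 n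
    induction n with
    | zero =>
      intro _
      rw [add_zero, hd _ (mem_up hB hu i hm1)]
      simp
    | succ n ih =>
      intro hn
      rw [Finset.mem_Ico] at hm1
      have h1 := ih (by omega)
      have h2 := ht _ (mem_up hB hu i (Finset.mem_Ico.2 hm1)) _
        (mem_up hB hu i (m := m1 + n) (Finset.mem_Ico.2 ⟨by omega, by omega⟩)) _
        (mem_up hB hu i (m := m1 + n + 1) (Finset.mem_Ico.2 ⟨by omega, by omega⟩))
      rw [show m1 + (n + 1) = m1 + n + 1 by ring, Finset.sum_Ico_succ_top (by omega)]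
      linarith
  have line2 : ∀ u ∈ B, ∀ i : Fin d, ∀ m1 ∈ Finset.Ico (a i) (b i), ∀ m2 ∈ Finset.Ico (a i) (b i),
      m1 ≤ m2 → r (Function.update u i m1) (Function.update u i m2) ≤ 2 * RR r a b i u := by
    intro u hu i m1 hm1 m2 hm2 h12
    rw [Finset.mem_Ico] at hm2
    have h1 := line u hu i m1 hm1 (m2 - m1) (by omega)
    rw [show m1 + (m2 - m1) = m2 by omega] at h1
    refine h1.trans ?_
    unfold RR
    refine mul_le_mul_of_nonneg_left (Finset.sum_le_sum_of_subset_of_nonneg ?_ ?_) (by norm_num)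
    · intro j hj
      rw [Finset.mem_Ico] at *
      omega
    · intro j hj _
      rw [Finset.mem_Ico] at hj
      exact h0 _ (mem_up hB hu i (Finset.mem_Ico.2 ⟨hj.1, by omega⟩)) _
        (mem_up hB hu i (Finset.mem_Ico.2 ⟨by omega, by omega⟩))
  have line3 : ∀ u ∈ B, ∀ i : Fin d, ∀ m1 ∈ Finset.Ico (a i) (b i), ∀ m2 ∈ Finset.Ico (a i) (b i),
      r (Function.update u i m1) (Function.update u i m2) ≤ 2 * RR r a b i u := by
    intro u hu i m1 hm1 m2 hm2
    rcases le_total m1 m2 with h | h
    · exact line2 u hu i m1 hm1 m2 hm2 h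
    · rw [hs _ (mem_up hB hu i hm1) _ (mem_up hB hu i hm2)]
      exact line2 u hu i m2 hm2 m1 hm1 h
  have mco : ∀ x ∈ B, ∀ i, x i ∈ Finset.Ico (a i) (b i) := by
    intro x hx i
    rw [hB, Fintype.mem_piFinset] at hx
    exact hx i
  -- along the path
  have pth : ∀ x ∈ B, ∀ y ∈ B, ∀ k : ℕ, k ≤ d → r x (zz x y k) ≤
      4 * ∑ i : Fin d, if i.val < k then RR r a b i (zz x y i.val) else 0 := by
    intro x hx y hy k
    induction k with
    | zero =>
      intro _
      rw [zz_zero, hd x hx]
      simp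
    | succ k ih =>
      intro hk
      have h1 := ih (by omega)
      have h2 := ht x hx _ (mem_zz hB hx hy k) _ (mem_zz hB hx hy (k + 1))
      set kk : Fin d := ⟨k, by omega⟩ with hkk
      have h3 : r (zz x y k) (zz x y (k + 1)) ≤ 2 * RR r a b kk (zz x y k) := by
        have e1 := zz_self x y kk
        have e2 := zz_succ x y kk
        simp only [hkk] at e1 e2
        have h4 := line3 _ (mem_zz hB hx hy k) kk (x kk) (mco x hx kk) (y kk) (mco y hy kk)
        rw [← e1, ← e2] at h4
        exact h4
      have h5 : (∑ i : Fin d, if i.val < k + 1 then RR r a b i (zz x y i.val) else 0) =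
          (∑ i : Fin d, if i.val < k then RR r a b i (zz x y i.val) else 0) +
            RR r a b kk (zz x y k) := by
        have h6 : RR r a b kk (zz x y k) =
            ∑ i : Fin d, if i = kk then RR r a b i (zz x y i.val) else 0 := by
          rw [Finset.sum_ite_eq' univ kk]
          simp [hkk]
        rw [h6, ← Finset.sum_add_distrib]
        apply Finset.sum_congr rfl
        intro i _
        by_cases h7 : i = kk
        · have h8 : i.val = k := by rw [h7]
          rw [if_pos (by omega), if_neg (by omega), if_pos h7, zero_add]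
        · have h8 : i.val ≠ k := fun h9 => h7 (Fin.ext h9)
          by_cases h10 : i.val < k
          · rw [if_pos (by omega), if_pos h10, if_neg h7, add_zero]
          · rw [if_neg (by omega), if_neg h10, if_neg h7, add_zero]
      rw [h5]
      linarith
  have pt1 : ∀ x ∈ B, ∀ y ∈ B, r x y ≤ 4 * ∑ i : Fin d, RR r a b i (zz x y i.val) := by
    intro x hx y hy
    have h1 := pth x hx y hy d le_rfl
    rw [zz_d] at h1
    refine h1.trans (le_of_eq ?_)
    congr 1
    apply Finset.sum_congr rfl
    intro i _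
    rw [if_pos i.2]
  -- the sum of the squares
  have cs1 : ∀ u ∈ B, ∀ i : Fin d, RR r a b i u ^ 2 ≤
      l * ∑ j ∈ Finset.Ico (a i) (b i), FF r B i (Function.update u i j) := by
    intro u hu i
    have h1 : RR r a b i u ^ 2 ≤ ((Finset.Ico (a i) (b i - 1)).card : ℝ) *
        ∑ j ∈ Finset.Ico (a i) (b i - 1),
          r (Function.update u i j) (Function.update u i (j + 1)) ^ 2 :=
      sq_sum_le_card_mul_sum_sq
    have h2 : ∑ j ∈ Finset.Ico (a i) (b i - 1),
          r (Function.update u i j) (Function.update u i (j + 1)) ^ 2 =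
        ∑ j ∈ Finset.Ico (a i) (b i - 1), FF r B i (Function.update u i j) := by
      apply Finset.sum_congr rfl
      intro j hj
      rw [Finset.mem_Ico] at hj
      unfold FF
      rw [Function.update_self, Function.update_idem,
        if_pos (mem_up hB hu i (Finset.mem_Ico.2 ⟨by omega, by omega⟩))]
    have hFF : ∀ w, 0 ≤ FF r B i w := by
      intro w
      unfold FF
      split_ifs
      · positivity
      · exact le_rfl
    have h3 : ∑ j ∈ Finset.Ico (a i) (b i - 1), FF r B i (Function.update u i j) ≤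
        ∑ j ∈ Finset.Ico (a i) (b i), FF r B i (Function.update u i j) := by
      refine Finset.sum_le_sum_of_subset_of_nonneg ?_ fun j _ _ => hFF _
      intro j hj
      rw [Finset.mem_Ico] at *
      omega
    have h4 : ((Finset.Ico (a i) (b i - 1)).card : ℝ) ≤ l := by
      rw [Nat.card_Ico]
      have := hl i
      exact_mod_cast (by omega : b i - 1 - a i ≤ l)
    refine h1.trans ?_
    rw [h2]
    exact mul_le_mul h4 h3 (Finset.sum_nonneg fun j _ => hFF _) (Nat.cast_nonneg _)
  have sq1 : ∀ x ∈ B, ∀ y ∈ B, r x y ^ 2 ≤ 16 * d * l * ∑ i : Fin d,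
      ∑ j ∈ Finset.Ico (a i) (b i), FF r B i (Function.update (zz x y i.val) i j) := by
    intro x hx y hy
    have h1 := pt1 x hx y hy
    have h2 := h0 x hx y hy
    have h3 : (∑ i : Fin d, RR r a b i (zz x y i.val)) ^ 2 ≤
        (d : ℝ) * ∑ i : Fin d, RR r a b i (zz x y i.val) ^ 2 := by
      have := sq_sum_le_card_mul_sum_sq (s := (univ : Finset (Fin d)))
        (f := fun i => RR r a b i (zz x y i.val))
      rwa [Finset.card_univ, Fintype.card_fin] at this
    have h4 : ∑ i : Fin d, RR r a b i (zz x y i.val) ^ 2 ≤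
        ∑ i : Fin d, (l : ℝ) * ∑ j ∈ Finset.Ico (a i) (b i),
          FF r B i (Function.update (zz x y i.val) i j) :=
      Finset.sum_le_sum fun i _ => cs1 _ (mem_zz hB hx hy _) i
    rw [← Finset.mul_sum] at h4
    calc r x y ^ 2 ≤ (4 * ∑ i : Fin d, RR r a b i (zz x y i.val)) ^ 2 := by
          exact pow_le_pow_left₀ h2 h1 2
      _ = 16 * (∑ i : Fin d, RR r a b i (zz x y i.val)) ^ 2 := by ring
      _ ≤ 16 * ((d : ℝ) * (l * ∑ i : Fin d, ∑ j ∈ Finset.Ico (a i) (b i),
          FF r B i (Function.update (zz x y i.val) i j))) := by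
          refine mul_le_mul_of_nonneg_left (h3.trans ?_) (by norm_num)
          exact mul_le_mul_of_nonneg_left h4 (Nat.cast_nonneg _)
      _ = _ := by ring
  -- the involution of pairs of points
  have inv1 : ∀ (k : ℕ) (G : (Fin d → ℕ) → ℝ),
      ∑ x ∈ B, ∑ y ∈ B, G (zz x y k) = B.card * ∑ x ∈ B, G x := by
    intro k G
    have h1 : ∑ x ∈ B, ∑ y ∈ B, G (zz x y k) = ∑ p ∈ B ×ˢ B, G (zz p.1 p.2 k) := by
      rw [Finset.sum_product]
    have h2 : ∑ p ∈ B ×ˢ B, G (zz p.1 p.2 k) = ∑ p ∈ B ×ˢ B, G p.1 := by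
      refine Finset.sum_nbij' (fun p => (zz p.1 p.2 k, zz p.2 p.1 k))
        (fun p => (zz p.1 p.2 k, zz p.2 p.1 k)) ?_ ?_ ?_ ?_ ?_
      · intro p hp
        rw [Finset.mem_product] at *
        exact ⟨mem_zz hB hp.1 hp.2 k, mem_zz hB hp.2 hp.1 k⟩
      · intro p hp
        rw [Finset.mem_product] at *
        exact ⟨mem_zz hB hp.1 hp.2 k, mem_zz hB hp.2 hp.1 k⟩
      · intro p _
        exact Prod.ext (zz_inv p.1 p.2 k) (zz_inv p.2 p.1 k)
      · intro p _
        exact Prod.ext (zz_inv p.1 p.2 k) (zz_inv p.2 p.1 k)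
      · intro p _
        rfl
    rw [h1, h2, Finset.sum_product]
    simp only [Finset.sum_const, nsmul_eq_mul]
    rw [Finset.mul_sum]
  -- the involution of points and coordinates
  have inv2 : ∀ (i : Fin d) (G : (Fin d → ℕ) → ℝ),
      ∑ x ∈ B, ∑ j ∈ Finset.Ico (a i) (b i), G (Function.update x i j) =
        (Finset.Ico (a i) (b i)).card * ∑ x ∈ B, G x := by
    intro i G
    have h1 : ∑ x ∈ B, ∑ j ∈ Finset.Ico (a i) (b i), G (Function.update x i j) =
        ∑ p ∈ B ×ˢ Finset.Ico (a i) (b i), G (Function.update p.1 i p.2) := by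
      rw [Finset.sum_product]
    have h2 : ∑ p ∈ B ×ˢ Finset.Ico (a i) (b i), G (Function.update p.1 i p.2) =
        ∑ p ∈ B ×ˢ Finset.Ico (a i) (b i), G p.1 := by
      refine Finset.sum_nbij' (fun p => (Function.update p.1 i p.2, p.1 i))
        (fun p => (Function.update p.1 i p.2, p.1 i)) ?_ ?_ ?_ ?_ ?_
      · intro p hp
        rw [Finset.mem_product] at *
        exact ⟨mem_up hB hp.1 i hp.2, mco _ hp.1 i⟩
      · intro p hp
        rw [Finset.mem_product] at *
        exact ⟨mem_up hB hp.1 i hp.2, mco _ hp.1 i⟩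
      · intro p _
        refine Prod.ext ?_ ?_
        · show Function.update (Function.update p.1 i p.2) i (p.1 i) = p.1
          rw [Function.update_idem, Function.update_eq_self]
        · show Function.update p.1 i p.2 i = p.2
          rw [Function.update_self]
      · intro p _
        refine Prod.ext ?_ ?_
        · show Function.update (Function.update p.1 i p.2) i (p.1 i) = p.1
          rw [Function.update_idem, Function.update_eq_self]
        · show Function.update p.1 i p.2 i = p.2
          rw [Function.update_self]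
      · intro p _
        rfl
    rw [h1, h2, Finset.sum_product]
    simp only [Finset.sum_const, nsmul_eq_mul]
    rw [Finset.mul_sum]
  -- the end
  have hFF : ∀ i w, 0 ≤ FF r B i w := by
    intro i w
    unfold FF
    split_ifs
    · positivity
    · exact le_rfl
  calc ∑ x ∈ B, ∑ y ∈ B, r x y ^ 2 ≤ ∑ x ∈ B, ∑ y ∈ B, (16 * d * l * ∑ i : Fin d,
      ∑ j ∈ Finset.Ico (a i) (b i), FF r B i (Function.update (zz x y i.val) i j)) :=
        Finset.sum_le_sum fun x hx => Finset.sum_le_sum fun y hy => sq1 x hx y hy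
    _ = 16 * d * l * ∑ i : Fin d, ∑ x ∈ B, ∑ y ∈ B,
      ∑ j ∈ Finset.Ico (a i) (b i), FF r B i (Function.update (zz x y i.val) i j) := by
        simp only [← Finset.mul_sum]
        congr 1
        rw [Finset.sum_congr rfl (fun x _ => Finset.sum_comm)]
        exact Finset.sum_comm
    _ = 16 * d * l * ∑ i : Fin d, (B.card * ((Finset.Ico (a i) (b i)).card *
          ∑ x ∈ B, FF r B i x)) := by
        congr 1
        apply Finset.sum_congr rfl
        intro i _
        rw [inv1 i.val (fun u => ∑ j ∈ Finset.Ico (a i) (b i), FF r B i (Function.update u i j)),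
          inv2]
    _ ≤ 16 * d * l * ∑ i : Fin d, (B.card * (l * ∑ x ∈ B, FF r B i x)) := by
        refine mul_le_mul_of_nonneg_left (Finset.sum_le_sum fun i _ => ?_) (by positivity)
        refine mul_le_mul_of_nonneg_left (mul_le_mul_of_nonneg_right ?_
          (Finset.sum_nonneg fun x _ => hFF i x)) (Nat.cast_nonneg _)
        rw [Nat.card_Ico]
        have := hl i
        exact_mod_cast (by omega : b i - a i ≤ l)
    _ = _ := by
        simp only [← Finset.mul_sum]
        rw [Finset.sum_comm]
        ring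

end

end Pool.Agent.Y950.CN
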