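import Pool.Agent.Y998.CN.Defs
import Pool.Agent.Y950.CN.PathBase

/-!
CN-PATH: comparison of a box with the complete graph.
-/

set_option autoImplicit false

namespace Pool.Agent.Y950.CN

/-- **CN-PATH**. -/
theorem t_PATH : Pool.Agent.Y998.CN.S_PATH := by
  intro d a b l hl B hB r h0 hs hd ht
  exact path r hl hB h0 hs hd ht

end Pool.Agent.Y950.CN
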